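import Pool.Agent.Lib.BP70.Stress

set_option autoImplicit false

namespace Pool.Agent.Lib.BP70

open MvPolynomial Matrix Pool.Agent.Lib.MP_ab14aa_co

/-- `G` is generically globally rigid in the plane: whenever the coordinates of `p` are
algebraically independent over the rationals, every placement `q` with the same edge lengths is
the image of `p` under an isometry of the plane. -/
def GenericallyGloballyRigid {n : ℕ} (G : SimpleGraph (Fin n)) : Prop :=
  ∀ p : Fin n → Plane, AlgebraicIndependent ℚ (fun x : Fin n × Fin 2 => p x.1 x.2) →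
    ∀ q : Fin n → Plane, (∀ u w, G.Adj u w → dist (q u) (q w) = dist (p u) (p w)) →
      ∃ f : Plane ≃ᵢ Plane, ∀ v, q v = f (p v)

def src : Fin 26 → Fin 14 :=
  ![0, 1, 2, 3, 4, 5, 6, 7, 8, 9, 10, 11, 12, 13, 0, 6, 0, 5, 5, 1, 1, 3, 3, 2, 7, 4]

def tgt : Fin 26 → Fin 14 :=
  ![1, 2, 3, 4, 5, 6, 7, 8, 9, 10, 11, 12, 13, 0, 6, 12, 11, 11, 13, 8, 10, 8, 10, 7, 10, 9]

def G14 : SimpleGraph (Fin 14) where
  Adj u v := ∃ e, (src e = u ∧ tgt e = v) ∨ (src e = v ∧ tgt e = u)
  symm := ⟨fun _ _ ⟨e, h⟩ => ⟨e, h.symm⟩⟩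
  loopless := ⟨by decide⟩

instance : DecidableRel G14.Adj := fun u v =>
  inferInstanceAs (Decidable (∃ e, (src e = u ∧ tgt e = v) ∨ (src e = v ∧ tgt e = u)))

def colV (j : Fin 26) : Fin 14 := ⟨j / 2 + 1, by omega⟩
def colI (j : Fin 26) : Fin 2 := ⟨j % 2, by omega⟩

abbrev sgn (R : Type) [CommRing R] : Fin 14 → Fin 26 → R := sg (n := 12) src tgt R

def TM {R : Type} [CommRing R] (x : Fin 14 × Fin 2 → R) : Matrix (Fin 26) (Fin 26) R :=
  fun j e => if j < 2 then (if e = j then 1 else 0)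
    else sgn R (colV j) e * (x (src e, colI j) - x (tgt e, colI j))

def WV {R : Type} [CommRing R] (x : Fin 14 × Fin 2 → R) : Fin 26 → R :=
  fun e => (TM x).adjugate e 1

def OM {R : Type} [CommRing R] (w : Fin 26 → R) : Matrix (Fin 14) (Fin 14) R :=
  fun v u => if v < 3 then (if u = v then 1 else 0) else ∑ e, w e * (sgn R v e * sgn R u e)

lemma sgn_map {R S : Type} [CommRing R] [CommRing S] (f : R →+* S) (v : Fin 14) (e : Fin 26) :
    f (sgn R v e) = sgn S v e := by
  simp only [sg, map_sub]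
  split_ifs <;> simp

lemma TM_map {R S : Type} [CommRing R] [CommRing S] (f : R →+* S) (x : Fin 14 × Fin 2 → R) :
    f.mapMatrix (TM x) = TM (fun c => f (x c)) := by
  ext j e
  simp only [RingHom.mapMatrix_apply, Matrix.map_apply, TM]
  split_ifs <;> simp [sgn_map]

lemma WV_map {R S : Type} [CommRing R] [CommRing S] (f : R →+* S) (x : Fin 14 × Fin 2 → R) :
    (fun e => f (WV x e)) = WV (fun c => f (x c)) := by
  funext e
  have := congrFun (congrFun (f.map_adjugate (TM x)) e) 1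
  rw [TM_map] at this
  exact this

lemma OM_map {R S : Type} [CommRing R] [CommRing S] (f : R →+* S) (w : Fin 26 → R) :
    f.mapMatrix (OM w) = OM (fun e => f (w e)) := by
  ext v u
  simp only [RingHom.mapMatrix_apply, Matrix.map_apply, OM]
  split_ifs <;> simp [sgn_map]

lemma OM_mulVec {R : Type} [CommRing R] (w : Fin 26 → R) (y : Fin 14 → R) (v : Fin 14) :
    (OM w *ᵥ y) v = if v < 3 then y v
      else ∑ e, w e * (sgn R v e * (y (src e) - y (tgt e))) := by
  simp only [mulVec, dotProduct, OM]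
  split_ifs with h
  · simp
  · simp only [Finset.sum_mul]
    rw [Finset.sum_comm]
    refine Finset.sum_congr rfl fun e _ => ?_
    have : ∑ u, sgn R u e * y u = y (src e) - y (tgt e) := by
      simp [sg, sub_mul, Finset.sum_sub_distrib]
    rw [← this, Finset.mul_sum, Finset.mul_sum]
    exact Finset.sum_congr rfl fun u _ => by ring

lemma sgn_zero {R : Type} [CommRing R] (v : Fin 14) (h : ¬ v < 2) : sgn R v 0 = 0 := by
  have h1 : v ≠ src 0 := by rintro rfl; exact h (by decide)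
  have h2 : v ≠ tgt 0 := by rintro rfl; exact h (by decide)
  simp [sg, h1, h2]

lemma transfer {K : Type} [Field K] (a b : K) (hb : b ≠ 0) (ω w : Fin 26 → K)
    (h : ∀ e, e ≠ 0 → a * ω e = b * w e) (y : Fin 14 → K) (hy : OM ω *ᵥ y = 0) :
    OM w *ᵥ y = 0 := by
  funext v
  have := congrFun hy v
  rw [OM_mulVec] at this ⊢
  split_ifs at this ⊢ with hv
  · exact this
  · apply mul_left_cancel₀ hb
    rw [Pi.zero_apply] at this ⊢
    rw [mul_zero, ← mul_zero a, ← this, Finset.mul_sum, Finset.mul_sum]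
    refine Finset.sum_congr rfl fun e _ => ?_
    by_cases he : e = 0
    · rw [he, sgn_zero v (fun hh => hv (hh.trans (by decide)))]
      ring
    · rw [← mul_assoc, ← h e he, mul_assoc]

lemma prop_WV {K : Type} [Field K] (x : Fin 14 × Fin 2 → K) (hx : (TM x).det ≠ 0)
    (ω : Fin 26 → K) (hω : ∀ j : Fin 26, ¬ j < 2 →
      ∑ e, ω e * (sgn K (colV j) e * (x (src e, colI j) - x (tgt e, colI j))) = 0) :
    ∀ e, e ≠ 0 → (TM x).det * ω e = ω 1 * WV x e := by
  have h1 : ∀ j, (TM x *ᵥ ω) j = if j < 2 then ω j else 0 := by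
    intro j
    simp only [mulVec, dotProduct, TM]
    split_ifs with h
    · simp
    · rw [← hω j h]
      exact Finset.sum_congr rfl fun e _ => mul_comm _ _
  have h2 : ∀ j, (TM x *ᵥ Pi.single 0 1) j = if j = 0 then (1 : K) else 0 := by
    intro j
    rw [mulVec_single_one]
    simp only [col_apply, TM]
    by_cases h : j < 2
    · simp [h, eq_comm]
    · have : j ≠ 0 := by rintro rfl; exact h (by decide)
      rw [if_neg h, if_neg this, sgn_zero, zero_mul]
      revert j
      decide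
  have h3 : ∀ j, (TM x *ᵥ WV x) j = if j = 1 then (TM x).det else 0 := by
    intro j
    have := congrFun (congrFun (mul_adjugate (TM x)) j) 1
    simp only [Matrix.smul_apply, one_apply, smul_eq_mul, mul_ite, mul_one, mul_zero] at this
    rw [← this]
    rfl
  have h4 : TM x *ᵥ ((TM x).det • (ω - ω 0 • Pi.single 0 1) - ω 1 • WV x) = 0 := by
    funext j
    simp only [mulVec_sub, mulVec_smul, Pi.sub_apply, Pi.smul_apply, h1, h2, h3, smul_eq_mul,
      Pi.zero_apply]
    by_cases a : j = 0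
    · subst a
      simp
    by_cases b : j = 1
    · subst b
      simp [mul_comm]
    have : ¬ j < 2 := by
      revert j
      decide
    simp [a, b, this]
  intro e he
  have := congrFun (eq_zero_of_mulVec_eq_zero hx h4) e
  simp only [Pi.sub_apply, Pi.smul_apply, smul_eq_mul, Pi.zero_apply, Pi.single_apply, he,
    if_false, mul_zero, sub_zero] at this
  exact sub_eq_zero.1 this

lemma generic_ne {σ : Type} (D : ∀ {R : Type} [CommRing R], (σ → R) → R)
    (hD : ∀ {R S : Type} [CommRing R] [CommRing S] (f : R →+* S) (x : σ → R),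
      f (D x) = D (fun c => f (x c)))
    (x0 : σ → ZMod 7) (h0 : D x0 ≠ 0) (p : σ → ℝ) (hp : AlgebraicIndependent ℚ p) :
    D p ≠ 0 := by
  intro h
  have h1 := hD (aeval p : MvPolynomial σ ℚ →ₐ[ℚ] ℝ).toRingHom X
  simp only [AlgHom.toRingHom_eq_coe, RingHom.coe_coe, aeval_X] at h1
  have h2 : D (X : σ → MvPolynomial σ ℚ) = 0 := hp (by rw [h1, map_zero]; exact h)
  have h3 := hD (MvPolynomial.map (σ := σ) (Int.castRingHom ℚ)) X
  simp only [map_X] at h3
  have h4 : D (X : σ → MvPolynomial σ ℤ) = 0 :=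
    map_injective (Int.castRingHom ℚ) Int.cast_injective (by rw [h3, map_zero]; exact h2)
  have h5 := hD (eval₂Hom (Int.castRingHom (ZMod 7)) x0) X
  simp only [eval₂Hom_X'] at h5
  rw [h4, map_zero] at h5
  exact h0 h5.symm

def dig (N k : ℕ) : ZMod 7 := ((N / 7 ^ k % 7 : ℕ) : ZMod 7)

def mS : Fin 14 × Fin 2 → ZMod 7 := fun c => dig 39252653574199342516246 (2 * c.1 + c.2)

def wS : Fin 26 → ZMod 7 := fun e => dig 5098106876207649368295 e

def TI : Matrix (Fin 26) (Fin 26) (ZMod 7) := fun i j => dig 18081802634831196547848394344286269060427840620786579242784396442960646716438197211349834497771533830133910559899480755845780812769889240788094043671652844035474880167691528040431682080416785816941391972267778074476536821933086868160606903219999891716919937217508444122993904091431249290383587611335422496008158728834073790809552093761309076922639219085272388275461047135133565302950533506736801431502267851389132804931815091128599554785040139018308286240719582709322847114183759645899602189549610475907825569408227609735797402768028055003982397358525832054714819826753494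 (26 * i + j)

def OI : Matrix (Fin 14) (Fin 14) (ZMod 7) := fun i j => dig 4128008620203076569519826673418458539428408642178302539364017054072126810063217645586904453251088681728933247112720071846028208999156146659167701165424641828973172785 (14 * i + j)

lemma TI_spec : ∀ i j, ∑ k, TM mS i k * TI k j = if i = j then 1 else 0 := by decide +kernel

lemma OI_spec : ∀ i j, ∑ k, OM wS i k * OI k j = if i = j then 1 else 0 := by decide +kernel

lemma wS_spec : ∀ j : Fin 26, ¬ j < 2 →
    ∑ e, wS e * (sgn (ZMod 7) (colV j) e * (mS (src e, colI j) - mS (tgt e, colI j))) = 0 := by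
  decide +kernel

instance : Fact (Nat.Prime 7) := ⟨by norm_num⟩

lemma detT_S : (TM mS).det ≠ 0 := by
  have : TM mS * TI = 1 := by
    ext i j
    rw [Matrix.mul_apply, TI_spec, one_apply]
  exact (isUnit_det_of_right_inverse this).ne_zero

lemma detO_S : (OM (WV mS)).det ≠ 0 := by
  have h1 : OM wS * OI = 1 := by
    ext i j
    rw [Matrix.mul_apply, OI_spec, one_apply]
  intro h
  obtain ⟨y, hy, h0⟩ := Matrix.exists_mulVec_eq_zero_iff.2 h
  apply hy
  apply eq_zero_of_mulVec_eq_zero (isUnit_det_of_right_inverse h1).ne_zero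
  exact transfer (wS 1) _ detT_S _ _
    (fun e he => (prop_WV mS detT_S wS wS_spec e he).symm) y h0

lemma exists_iso' (l0 l1 l2 k0 k1 k2 : ℝ) (h1 : l1 ^ 2 + k1 ^ 2 = 1) (h2 : l2 ^ 2 + k2 ^ 2 = 1)
    (h3 : l1 * l2 + k1 * k2 = 0) :
    ∃ f : Plane ≃ᵢ Plane, ∀ w : Plane, f w 0 = l0 + l1 * w 0 + l2 * w 1 ∧
      f w 1 = k0 + k1 * w 0 + k2 * w 1 := by
  have hD : (l1 * k2 - l2 * k1) ^ 2 = 1 := by
    linear_combination (l2 ^ 2 + k2 ^ 2) * h1 + h2 - (l1 * l2 + k1 * k2) * h3
  have a1 : l2 = -(l1 * k2 - l2 * k1) * k1 := by linear_combination (-l2) * h1 + l1 * h3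
  have a2 : k2 = (l1 * k2 - l2 * k1) * l1 := by linear_combination (-k2) * h1 + k1 * h3
  have g1 : l1 ^ 2 + l2 ^ 2 = 1 := by
    rw [a1]
    linear_combination h1 + k1 ^ 2 * hD
  have g2 : k1 ^ 2 + k2 ^ 2 = 1 := by linear_combination h1 + h2 - g1
  have g3 : l1 * k1 + l2 * k2 = 0 := by
    have : l2 * k2 = -(l1 * k2 - l2 * k1) * k1 * ((l1 * k2 - l2 * k1) * l1) := by
      rw [← a1, ← a2]
    rw [this]
    linear_combination (-(l1 * k1)) * hD
  let e : Plane ≃ Plane :=
    { toFun := fun w => !₂[l0 + l1 * w 0 + l2 * w 1, k0 + k1 * w 0 + k2 * w 1]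
      invFun := fun w => !₂[l1 * (w 0 - l0) + k1 * (w 1 - k0), l2 * (w 0 - l0) + k2 * (w 1 - k0)]
      left_inv := by
        intro w; ext i; fin_cases i
        · simp; linear_combination (w 0) * h1 + (w 1) * h3
        · simp; linear_combination (w 1) * h2 + (w 0) * h3
      right_inv := by
        intro w; ext i; fin_cases i
        · simp; linear_combination (w 0 - l0) * g1 + (w 1 - k0) * g3
        · simp; linear_combination (w 1 - k0) * g2 + (w 0 - l0) * g3 }
  have he : Isometry e := by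
    apply Isometry.of_dist_eq
    intro u w
    apply dist_eq_of_sq
    simp [e]
    linear_combination (u 0 - w 0) ^ 2 * h1 + (u 1 - w 1) ^ 2 * h2 +
      2 * (u 0 - w 0) * (u 1 - w 1) * h3
  exact ⟨⟨e, he⟩, fun w => ⟨by simp [e], by simp [e]⟩⟩

lemma conic (a b c x1 y1 x2 y2 x3 y3 : ℝ) (d12 : x1 * y2 - x2 * y1 ≠ 0)
    (d13 : x1 * y3 - x3 * y1 ≠ 0) (d23 : x2 * y3 - x3 * y2 ≠ 0)
    (e1 : a * x1 ^ 2 + b * (x1 * y1) + c * y1 ^ 2 = 0)
    (e2 : a * x2 ^ 2 + b * (x2 * y2) + c * y2 ^ 2 = 0)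
    (e3 : a * x3 ^ 2 + b * (x3 * y3) + c * y3 ^ 2 = 0) : a = 0 ∧ b = 0 ∧ c = 0 := by
  have hd := mul_ne_zero (mul_ne_zero d12 d13) d23
  refine ⟨mul_left_cancel₀ hd ?_, mul_left_cancel₀ hd ?_, mul_left_cancel₀ hd ?_⟩
  · linear_combination (x2 * y2 * y3 ^ 2 - x3 * y3 * y2 ^ 2) * e1 -
      (x1 * y1 * y3 ^ 2 - x3 * y3 * y1 ^ 2) * e2 + (x1 * y1 * y2 ^ 2 - x2 * y2 * y1 ^ 2) * e3
  · linear_combination (-(x2 ^ 2 * y3 ^ 2 - x3 ^ 2 * y2 ^ 2)) * e1 +
      (x1 ^ 2 * y3 ^ 2 - x3 ^ 2 * y1 ^ 2) * e2 - (x1 ^ 2 * y2 ^ 2 - x2 ^ 2 * y1 ^ 2) * e3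
  · linear_combination (x2 ^ 2 * x3 * y3 - x3 ^ 2 * x2 * y2) * e1 -
      (x1 ^ 2 * x3 * y3 - x3 ^ 2 * x1 * y1) * e2 + (x1 ^ 2 * x2 * y2 - x2 ^ 2 * x1 * y1) * e3

def crs {R : Type} [CommRing R] (u v : Fin 14) (x : Fin 14 × Fin 2 → R) : R :=
  (x (0, 0) - x (u, 0)) * (x (0, 1) - x (v, 1)) - (x (0, 0) - x (v, 0)) * (x (0, 1) - x (u, 1))

lemma crs_ne (u v : Fin 14) (h : crs u v mS ≠ 0) (p : Fin 14 × Fin 2 → ℝ)
    (hp : AlgebraicIndependent ℚ p) : crs u v p ≠ 0 :=
  generic_ne (fun x => crs u v x) (fun f x => by simp [crs]) mS h p hp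

theorem globally_rigid : GenericallyGloballyRigid G14 := by
  intro p hp q hq
  set P : Fin 14 × Fin 2 → ℝ := fun x => p x.1 x.2 with hP
  set Q : Fin 14 × Fin 2 → ℝ := fun x => q x.1 x.2 with hQ
  have hlen : ∀ e, sqLen (n := 12) src tgt Q e = sqLen (n := 12) src tgt P e := fun e =>
    sq_of_dist_eq (hq _ _ ⟨e, Or.inl ⟨rfl, rfl⟩⟩)
  obtain ⟨ω, hω, eP, eQ⟩ := common_stress (n := 12) src tgt (by norm_num) P Q hp hlen
  have dT : (TM P).det ≠ 0 := generic_ne (fun x => (TM x).det)
    (fun f x => by rw [RingHom.map_det, TM_map]) mS detT_S P hp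
  have dO : (OM (WV P)).det ≠ 0 := generic_ne (fun x => (OM (WV x)).det)
    (fun f x => by rw [RingHom.map_det, OM_map, WV_map]) mS detO_S P hp
  have d01 : P (0, 0) - P (1, 0) ≠ 0 := generic_ne (fun x => x (0, 0) - x (1, 0))
    (fun f x => by simp) mS (by decide +kernel) P hp
  have c12 := crs_ne 1 2 (by decide +kernel) P hp
  have c16 := crs_ne 1 6 (by decide +kernel) P hp
  have c1b := crs_ne 1 11 (by decide +kernel) P hp
  have c6b := crs_ne 6 11 (by decide +kernel) P hp
  have pr := prop_WV P dT ω (fun j _ => eP _ _)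
  have w1 : ω 1 ≠ 0 := by
    intro h
    have z : ∀ e, e ≠ 0 → ω e = 0 := fun e he => by
      have := pr e he
      rw [h, zero_mul] at this
      exact (mul_eq_zero.1 this).resolve_left dT
    apply hω
    funext e
    by_cases he : e = 0
    · have := eP 0 0
      rw [Finset.sum_eq_single 0 (fun b _ hb => by rw [z b hb, zero_mul]) (by simp)] at this
      have s0 : sg (n := 12) src tgt ℝ 0 0 = 1 := by simp [sg, src, tgt]
      rw [s0, one_mul] at this
      rw [he]
      exact (mul_eq_zero.1 this).resolve_right d01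
    · exact z e he
  have aff : ∀ i : Fin 2, ∃ l0 l1 l2 : ℝ, ∀ v, Q (v, i) = l0 + l1 * P (v, 0) + l2 * P (v, 1) := by
    intro i
    obtain ⟨l1, l2, a1, a2⟩ : ∃ l1 l2 : ℝ,
        Q (0, i) - Q (1, i) = l1 * (P (0, 0) - P (1, 0)) + l2 * (P (0, 1) - P (1, 1)) ∧
        Q (0, i) - Q (2, i) = l1 * (P (0, 0) - P (2, 0)) + l2 * (P (0, 1) - P (2, 1)) := by
      refine ⟨((Q (0, i) - Q (1, i)) * (P (0, 1) - P (2, 1)) -
          (Q (0, i) - Q (2, i)) * (P (0, 1) - P (1, 1))) / crs 1 2 P,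
        ((P (0, 0) - P (1, 0)) * (Q (0, i) - Q (2, i)) -
          (P (0, 0) - P (2, 0)) * (Q (0, i) - Q (1, i))) / crs 1 2 P, ?_, ?_⟩ <;>
      · field_simp
        simp only [crs]
        ring
    refine ⟨Q (0, i) - l1 * P (0, 0) - l2 * P (0, 1), l1, l2, ?_⟩
    let y : Fin 14 → ℝ := fun v =>
      Q (v, i) - (Q (0, i) - l1 * P (0, 0) - l2 * P (0, 1) + l1 * P (v, 0) + l2 * P (v, 1))
    have hy : OM ω *ᵥ y = 0 := by
      funext v
      rw [OM_mulVec, Pi.zero_apply]
      split_ifs with hv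
      · have : v = 0 ∨ v = 1 ∨ v = 2 := by
          revert v
          decide
        rcases this with rfl | rfl | rfl <;> simp only [y] <;> linarith
      · have b1 := eQ v i
        have b2 := eP v 0
        have b3 := eP v 1
        rw [← sub_zero (0 : ℝ), ← sub_zero ((0 : ℝ) - 0)]
        nth_rewrite 3 [← mul_zero l2]
        nth_rewrite 2 [← mul_zero l1]
        nth_rewrite 3 [← b3]
        nth_rewrite 2 [← b2]
        nth_rewrite 1 [← b1]
        rw [Finset.mul_sum, Finset.mul_sum, ← Finset.sum_sub_distrib, ← Finset.sum_sub_distrib]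
        refine Finset.sum_congr rfl fun e _ => ?_
        simp only [y]
        ring
    have := eq_zero_of_mulVec_eq_zero dO (transfer _ _ w1 _ _ pr y hy)
    intro v
    exact sub_eq_zero.1 (congrFun this v)
  obtain ⟨l0, l1, l2, hl⟩ := aff 0
  obtain ⟨k0, k1, k2, hk⟩ := aff 1
  have con : ∀ e, (l1 ^ 2 + k1 ^ 2 - 1) * (P (src e, 0) - P (tgt e, 0)) ^ 2 +
      (2 * (l1 * l2 + k1 * k2)) * ((P (src e, 0) - P (tgt e, 0)) * (P (src e, 1) - P (tgt e, 1))) +
      (l2 ^ 2 + k2 ^ 2 - 1) * (P (src e, 1) - P (tgt e, 1)) ^ 2 = 0 := by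
    intro e
    have := hlen e
    simp only [sqLen, hl, hk] at this
    linear_combination this
  obtain ⟨z1, z2, z3⟩ := conic _ _ _ _ _ _ _ _ _ c16 c1b c6b (con 0) (con 14) (con 16)
  obtain ⟨f, hf⟩ := exists_iso' l0 l1 l2 k0 k1 k2 (by linarith) (by linarith) (by linarith)
  refine ⟨f, fun v => ?_⟩
  ext i
  fin_cases i
  · exact (hl v).trans (hf (p v)).1.symm
  · exact (hk v).trans (hf (p v)).2.symm

end Pool.Agent.Lib.BP70
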