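import Pool.Agent.Lib.BP70.Global

set_option autoImplicit false

namespace Pool.Agent.Lib.BP70

open Pool.Agent.Lib.MP_ab14aa_co

lemma cyc_le : SimpleGraph.cycleGraph 14 ≤ G14 := by
  intro u v
  revert u v
  decide +kernel

def nbr : Fin 14 → List (Fin 14) :=
  ![[1, 13, 6, 11], [0, 2, 8, 10], [1, 3, 7], [2, 4, 8, 10], [3, 5, 9], [4, 6, 11, 13],
    [5, 7, 0, 12], [6, 8, 2, 10], [7, 9, 1, 3], [8, 10, 4], [9, 11, 1, 3, 7], [10, 12, 0, 5],
    [11, 13, 6], [12, 0, 5]]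

lemma nbr_adj : ∀ u v, v ∈ nbr u → G14.Adj u v := by decide +kernel

def rch (a b : Fin 14) (r : Fin 14) : ℕ → Fin 14 → Bool
  | 0, v => v == r
  | k + 1, v => rch a b r k v || (v != a && v != b && (nbr v).any (fun u => rch a b r k u))

def rt (a b : Fin 14) : Fin 14 :=
  if a ≠ 10 ∧ b ≠ 10 then 10 else if a ≠ 0 ∧ b ≠ 0 then 0 else 5

lemma rt_ne : ∀ a b, rt a b ≠ a ∧ rt a b ≠ b := by decide +kernel

lemma rch_all : ∀ a b v, v ≠ a → v ≠ b → rch a b (rt a b) 5 v = true := by decide +kernel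

lemma rch_sound (a b r : Fin 14) (hr : r ∈ ({a, b} : Set (Fin 14))ᶜ) :
    ∀ k v, rch a b r k v = true → ∃ hv : v ∈ ({a, b} : Set (Fin 14))ᶜ,
      (G14.induce ({a, b} : Set (Fin 14))ᶜ).Reachable ⟨v, hv⟩ ⟨r, hr⟩ := by
  intro k
  induction k with
  | zero =>
    intro v h
    have : v = r := by simpa [rch] using h
    subst this
    exact ⟨hr, SimpleGraph.Reachable.refl _⟩
  | succ k ih =>
    intro v h
    simp only [rch, Bool.or_eq_true, Bool.and_eq_true, bne_iff_ne, List.any_eq_true] at h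
    rcases h with h | ⟨⟨ha, hb⟩, u, hu, h⟩
    · exact ih v h
    · obtain ⟨hu', hreach⟩ := ih u h
      have hv : v ∈ ({a, b} : Set (Fin 14))ᶜ := by simp [ha, hb]
      refine ⟨hv, SimpleGraph.Reachable.trans (SimpleGraph.Adj.reachable ?_) hreach⟩
      exact nbr_adj v u hu

lemma three_conn14 (a b : Fin 14) : (G14.induce ({a, b} : Set (Fin 14))ᶜ).Connected := by
  have hr : rt a b ∈ ({a, b} : Set (Fin 14))ᶜ := by simpa using rt_ne a b
  rw [SimpleGraph.connected_iff_exists_forall_reachable]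
  refine ⟨⟨_, hr⟩, fun ⟨v, hv⟩ => ?_⟩
  have hv' : v ≠ a ∧ v ≠ b := by simpa using hv
  obtain ⟨_, h⟩ := rch_sound a b _ hr 5 v (rch_all a b v hv'.1 hv'.2)
  exact h.symm

def Psi (z : Fin 18 → ℝ) : Fin 18 → ℝ :=
  ![z 0, z 0 * z 2, z 1 * z 3, z 0 ^ 2 + z 1 ^ 2 + z 2 ^ 2 + z 3 ^ 2,
    z 6 * z 8 + z 7 * z 9, z 6 * z 12 + z 7 * z 13, z 8 * z 10 + z 9 * z 11,
    z 6 * z 10 + z 7 * z 11, z 8 * z 12 + z 9 * z 13,
    z 6 ^ 2 + z 7 ^ 2 + z 8 ^ 2 + z 9 ^ 2 + z 10 ^ 2 + z 11 ^ 2 + z 12 ^ 2 + z 13 ^ 2,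
    (-z 2 - (z 4 - z 6 - z 8)) ^ 2 + (-z 3 - (z 5 - z 7 - z 9)) ^ 2,
    (z 4 + z 6 - z 8 - z 14) ^ 2 + (z 5 + z 7 - z 9 - z 15) ^ 2,
    (z 14 - z 2) ^ 2 + (z 15 + z 3) ^ 2,
    (z 0 - (z 4 + z 6 + z 8)) ^ 2 + (-z 1 - (z 5 + z 7 + z 9)) ^ 2,
    (z 4 + z 10 + z 12 - z 16) ^ 2 + (z 5 + z 11 + z 13 - z 17) ^ 2,
    (z 16 - (z 4 - z 10 + z 12)) ^ 2 + (z 17 - (z 5 - z 11 + z 13)) ^ 2,
    (z 4 - z 10 + z 12 - z 0) ^ 2 + (z 5 - z 11 + z 13 - z 1) ^ 2,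
    (z 14 - z 16) ^ 2 + (z 15 - z 17) ^ 2]

def y0 : Fin 18 → ℝ := ![12, 9, 10, 12, 5, -6, 3, -3, 11, 11, 2, -2, 12, 12, 6, -16, 18, 6]

lemma Psi_contDiff : ContDiff ℝ 1 Psi := by
  rw [contDiff_pi]
  intro i
  fin_cases i <;> simp [Psi] <;> fun_prop

lemma Psi_quad (h : Fin 18 → ℝ) (t : ℝ) :
    Psi (y0 + t • h) = Psi y0 + t • ((1 / 2 : ℝ) • (Psi (y0 + h) - Psi (y0 - h))) +
      t ^ 2 • ((1 / 2 : ℝ) • (Psi (y0 + h) + Psi (y0 - h)) - Psi y0) := by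
  funext i
  fin_cases i <;> simp [Psi] <;> ring

lemma fderiv_Psi (h : Fin 18 → ℝ) :
    fderiv ℝ Psi y0 h = (1 / 2 : ℝ) • (Psi (y0 + h) - Psi (y0 - h)) := by
  have hd : HasFDerivAt Psi (fderiv ℝ Psi y0) (y0 + (0 : ℝ) • h) := by
    simpa using (Psi_contDiff.differentiable one_ne_zero y0).hasFDerivAt
  have hl : HasDerivAt (fun t : ℝ => y0 + t • h) h 0 := by
    simpa using ((hasDerivAt_id (0 : ℝ)).smul_const h).const_add y0
  have h1 : HasDerivAt (fun t : ℝ => Psi (y0 + t • h)) (fderiv ℝ Psi y0 h) 0 :=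
    HasFDerivAt.comp_hasDerivAt (l := Psi) (f := fun t : ℝ => y0 + t • h) (0 : ℝ) hd hl
  have h2 : HasDerivAt (fun t : ℝ => Psi (y0 + t • h))
      ((1 / 2 : ℝ) • (Psi (y0 + h) - Psi (y0 - h))) 0 := by
    simp only [Psi_quad]
    have a1 := ((hasDerivAt_id (0 : ℝ)).smul_const
      ((1 / 2 : ℝ) • (Psi (y0 + h) - Psi (y0 - h)))).const_add (Psi y0)
    have a2 := ((hasDerivAt_id (0 : ℝ)).pow 2).smul_const
      ((1 / 2 : ℝ) • (Psi (y0 + h) + Psi (y0 - h)) - Psi y0)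
    have a3 := a1.add a2
    simp only [id, Nat.cast_ofNat, one_smul, Nat.add_one_sub_one, pow_one, mul_zero, zero_mul,
      zero_smul, add_zero] at a3
    exact a3
  exact h1.unique h2

lemma fderiv_inj14 (h : Fin 18 → ℝ) (h0 : fderiv ℝ Psi y0 h = 0) : h = 0 := by
  rw [fderiv_Psi] at h0
  have e := fun i => congrFun h0 i
  have a0 := e 0; have a1 := e 1; have a2 := e 2; have a3 := e 3
  have a4 := e 4; have a5 := e 5; have a6 := e 6; have a7 := e 7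
  have a8 := e 8; have a9 := e 9; have a10 := e 10; have a11 := e 11
  have a12 := e 12; have a13 := e 13; have a14 := e 14; have a15 := e 15
  have a16 := e 16; have a17 := e 17
  clear e h0
  simp only [Psi, y0, Pi.smul_apply, Pi.sub_apply, Pi.add_apply, Pi.zero_apply, smul_eq_mul,
    Matrix.cons_val] at a0 a1 a2 a3 a4 a5 a6 a7 a8 a9 a10 a11 a12 a13 a14 a15 a16 a17
  ring_nf at a0 a1 a2 a3 a4 a5 a6 a7 a8 a9 a10 a11 a12 a13 a14 a15 a16 a17
  funext i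
  fin_cases i <;> simp <;> linarith

noncomputable def cf (z : Fin 18 → ℝ) : Fin 14 → Plane :=
  ![!₂[-z 2, -z 3], !₂[z 4 - z 6 - z 8, z 5 - z 7 - z 9], !₂[z 4 + z 10 - z 12, z 5 + z 11 - z 13],
    !₂[z 4 + z 6 - z 8, z 5 + z 7 - z 9], !₂[z 14, z 15], !₂[z 2, -z 3], !₂[z 0, -z 1],
    !₂[z 4 + z 6 + z 8, z 5 + z 7 + z 9], !₂[z 4 + z 10 + z 12, z 5 + z 11 + z 13],
    !₂[z 16, z 17], !₂[z 4 - z 10 + z 12, z 5 - z 11 + z 13], !₂[z 0, z 1], !₂[-z 2, z 3],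
    !₂[-z 0, z 1]]

lemma cf_cont : Continuous cf := by
  apply continuous_pi
  intro v
  fin_cases v <;> simp [cf] <;> fun_prop

def X14 : Fin 14 → ℤ := ![-10, -9, -5, -3, 6, 10, 12, 19, 19, 18, 15, 12, -10, -12]
def Y14 : Fin 14 → ℤ := ![-12, -14, -20, -20, -16, -12, -9, 2, 4, 6, 8, 9, 12, 9]

lemma cf_X (i : Fin 14) : cf y0 i 0 = (X14 i : ℝ) := by
  fin_cases i <;> simp [cf, y0, X14] <;> norm_num

lemma cf_Y (i : Fin 14) : cf y0 i 1 = (Y14 i : ℝ) := by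
  fin_cases i <;> simp [cf, y0, Y14] <;> norm_num

lemma int_convex14 : ∀ i j k : Fin 14, i < j → j < k →
    0 < (X14 j - X14 i) * (Y14 k - Y14 i) - (Y14 j - Y14 i) * (X14 k - X14 i) := by decide +kernel

lemma cf_convex : StrictlyConvex (cf y0) := by
  intro i j k hij hjk
  simp only [cf_X, cf_Y]
  exact_mod_cast int_convex14 i j k hij hjk

theorem cf_flexible : Flexible G14 (cf y0) := by
  obtain ⟨ε, hε, z, hz, hz0, hΦ⟩ := exists_path Psi y0 (Pi.single 0 1) (fderiv ℝ Psi y0)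
    (Psi_contDiff.contDiffAt.hasStrictFDerivAt one_ne_zero) fderiv_inj14
  refine ⟨fun t => cf (z t), cf_cont.comp hz, by simp [hz0], ?_, 1, ?_⟩
  · intro t
    have e := fun i => congrFun (hΦ t) i
    have a1 := e 1; have a2 := e 2; have a3 := e 3
    have a4 := e 4; have a5 := e 5; have a6 := e 6; have a7 := e 7
    have a8 := e 8; have a9 := e 9; have a10 := e 10; have a11 := e 11
    have a12 := e 12; have a13 := e 13; have a14 := e 14; have a15 := e 15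
    have a16 := e 16; have a17 := e 17
    clear e
    simp [Psi, y0] at a1 a2 a3 a4 a5 a6 a7 a8 a9 a10 a11 a12 a13 a14 a15 a16 a17
    have a18 : z t 10 * z t 12 + z t 11 * z t 13 = 0 := by
      have hb : z t 8 ^ 2 + z t 9 ^ 2 ≠ 0 := by
        intro hh
        obtain ⟨b1, b2⟩ := (add_eq_zero_iff_of_nonneg (sq_nonneg _) (sq_nonneg _)).1 hh
        rw [pow_eq_zero_iff two_ne_zero] at b1 b2
        rw [b1, b2] at a8
        norm_num at a8
      have h7 : z t 6 * z t 10 + z t 7 * z t 11 ≠ 0 := by rw [a7]; norm_num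
      apply mul_left_cancel₀ (mul_ne_zero hb h7)
      linear_combination
        (-((z t 8 * z t 12 + z t 9 * z t 13) * (z t 10 ^ 2 + z t 11 ^ 2))) * a4 +
        ((z t 8 ^ 2 + z t 9 ^ 2) * (z t 10 ^ 2 + z t 11 ^ 2) -
          (z t 8 * z t 10 + z t 9 * z t 11) ^ 2) * a5 +
        ((z t 6 * z t 8 + z t 7 * z t 9) * (z t 10 * z t 12 + z t 11 * z t 13) +
          (z t 6 * z t 10 + z t 7 * z t 11) * (z t 8 * z t 12 + z t 9 * z t 13)) * a6
    have key : ∀ e, dist (cf (z t) (src e)) (cf (z t) (tgt e)) =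
        dist (cf y0 (src e)) (cf y0 (tgt e)) := by
      intro e
      apply dist_eq_of_sq
      fin_cases e <;> simp [src, tgt, cf, y0] <;> linarith
    rintro u w ⟨e, ⟨rfl, rfl⟩ | ⟨rfl, rfl⟩⟩
    · exact key e
    · rw [dist_comm, key e, dist_comm]
  · rintro ⟨f, hf⟩
    have h1 : dist (cf (z 1) 11) (cf (z 1) 13) = dist (cf y0 11) (cf y0 13) := by
      have a := hf 11
      have b := hf 13
      simp only at a b
      rw [a, b, f.dist_eq]
    have h2 := sq_of_dist_eq h1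
    have a0 := congrFun (hΦ 1) 0
    simp [Psi, y0] at a0
    simp [cf, y0, a0] at h2
    nlinarith

end Pool.Agent.Lib.BP70
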