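import Pool.Agent.Lib.MP_ab14aa_co.Flex

set_option autoImplicit false

namespace Pool.Agent.Lib.BP70

open MvPolynomial

lemma deg_pderiv {E : Type} (e : E) (P : MvPolynomial E ℚ) (h : pderiv e P ≠ 0) :
    (pderiv e P).totalDegree < P.totalDegree := by
  classical
  obtain ⟨m, hm, e1⟩ := Finset.exists_mem_eq_sup (pderiv e P).support
    (support_nonempty.2 h) (fun s : E →₀ ℕ => s.sum fun _ k => k)
  have h1 : m + Finsupp.single e 1 ∈ P.support := by
    rw [mem_support_iff] at hm ⊢
    rw [coeff_pderiv] at hm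
    exact left_ne_zero_of_mul hm
  have h2 := le_totalDegree h1
  rw [Finsupp.sum_add_index' (fun _ => rfl) (fun _ _ _ => rfl), Finsupp.sum_single_index rfl] at h2
  rw [totalDegree, e1]
  omega

lemma const_of_pderiv {E : Type} (P : MvPolynomial E ℚ) (h : ∀ e, pderiv e P = 0) :
    P = C (coeff 0 P) := by
  classical
  ext m
  rw [coeff_C]
  split_ifs with hm
  · rw [hm]
  · obtain ⟨e, he⟩ : ∃ e, m e ≠ 0 := by
      by_contra hh
      push Not at hh
      exact hm (Finsupp.ext hh).symm
    have e1 : m - Finsupp.single e 1 + Finsupp.single e 1 = m := by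
      apply tsub_add_cancel_of_le
      rw [Finsupp.single_le_iff]
      omega
    have := congrArg (coeff (m - Finsupp.single e 1)) (h e)
    rw [coeff_pderiv, e1, coeff_zero] at this
    refine (mul_eq_zero.1 this).resolve_right ?_
    positivity

lemma descent {E A : Type} [CommRing A] [Nontrivial A] [Algebra ℚ A]
    (φ : MvPolynomial E ℚ →ₐ[ℚ] A) (P : MvPolynomial E ℚ) (hP : P ≠ 0) (h0 : φ P = 0) :
    ∃ Q, φ Q = 0 ∧ ∃ e, φ (pderiv e Q) ≠ 0 := by
  by_contra hh
  push Not at hh
  have key : ∀ n, ∀ Q : MvPolynomial E ℚ, Q.totalDegree = n → φ Q = 0 → Q = 0 := by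
    intro n
    induction n using Nat.strong_induction_on with
    | _ n ih =>
      intro Q hn hQ
      have all : ∀ e, pderiv e Q = 0 := by
        intro e
        by_contra he
        exact he (ih _ (hn ▸ deg_pderiv e Q he) _ rfl (hh Q hQ e))
      have hc := const_of_pderiv Q all
      rw [hc] at hQ ⊢
      have : φ (C (coeff 0 Q)) = algebraMap ℚ A (coeff 0 Q) := φ.commutes _
      rw [this, map_eq_zero_iff _ (algebraMap ℚ A).injective] at hQ
      rw [hQ, C_0]
  exact hP (key _ P rfl h0)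

lemma chain {E σ : Type} [Fintype E] (F : E → MvPolynomial σ ℚ) (i : σ) (P : MvPolynomial E ℚ) :
    pderiv i (aeval F P) = ∑ e, aeval F (pderiv e P) * pderiv i (F e) := by
  classical
  induction P using MvPolynomial.induction_on with
  | C a => simp
  | add p q hp hq => simp only [map_add, hp, hq, add_mul, Finset.sum_add_distrib]
  | mul_X p e hp =>
    simp only [map_mul, aeval_X, pderiv_mul, hp, map_add, add_mul, Finset.sum_add_distrib,
      pderiv_X, Finset.sum_mul]
    congr 1
    · exact Finset.sum_congr rfl fun _ _ => by ring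
    · rw [Finset.sum_eq_single e]
      · simp
      · intro b _ hb
        simp [hb.symm]
      · simp

lemma aeval_aeval {E σ A : Type} [CommRing A] [Algebra ℚ A] (F : E → MvPolynomial σ ℚ)
    (x : σ → A) (P : MvPolynomial E ℚ) :
    aeval x (aeval F P) = aeval (fun e => aeval x (F e)) P := by
  rw [← AlgHom.comp_apply, comp_aeval]

section
variable {n m : ℕ} (s t : Fin m → Fin (n + 2))

/-- Squared length of an edge. -/
def sqLen {R : Type} [CommRing R] (x : Fin (n + 2) × Fin 2 → R) (e : Fin m) : R :=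
  (x (s e, 0) - x (t e, 0)) ^ 2 + (x (s e, 1) - x (t e, 1)) ^ 2

lemma aeval_sqLen {σ A : Type} [CommRing A] [Algebra ℚ A] (y : σ → A)
    (x : Fin (n + 2) × Fin 2 → MvPolynomial σ ℚ) (e : Fin m) :
    aeval y (sqLen s t x e) = sqLen s t (fun v => aeval y (x v)) e := by
  simp [sqLen]

/-- The coordinates that are not pinned. -/
def Free (n : ℕ) : Type :=
  {c : Fin (n + 2) × Fin 2 // c ≠ (0, 0) ∧ c ≠ (0, 1) ∧ c ≠ (1, 1)}

instance : Fintype (Free n) := by unfold Free; infer_instance

lemma card_free : Fintype.card (Free n) + 3 = (n + 2) * 2 := by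
  classical
  have h : Fintype.card (Free n) =
      (Finset.univ \ ({(0, 0), (0, 1), (1, 1)} : Finset (Fin (n + 2) × Fin 2))).card := by
    unfold Free
    rw [Fintype.card_subtype]
    congr 1
    ext c
    simp
  have h3 : ({(0, 0), (0, 1), (1, 1)} : Finset (Fin (n + 2) × Fin 2)).card = 3 := by
    rw [Finset.card_eq_three]
    exact ⟨_, _, _, by simp, by simp, by simp, rfl⟩
  rw [h, Finset.card_sdiff_of_subset (Finset.subset_univ _), h3]
  simp
  omega

lemma dependent (hm : 2 * n + 1 < m) :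
    ∃ P : MvPolynomial (Fin m) ℚ, P ≠ 0 ∧
      aeval (sqLen s t (X : _ → MvPolynomial (Fin (n + 2) × Fin 2) ℚ)) P = 0 := by
  classical
  let π : Fin (n + 2) × Fin 2 → MvPolynomial (Free n) ℚ := fun c =>
    if h : c ≠ (0, 0) ∧ c ≠ (0, 1) ∧ c ≠ (1, 1) then X ⟨c, h⟩ else 0
  have hni : ¬ AlgebraicIndependent ℚ (sqLen s t π) := by
    intro h
    have h1 := h.cardinalMk_le_trdeg
    rw [MvPolynomial.trdeg_of_isDomain] at h1
    simp only [Cardinal.mk_fintype, Fintype.card_fin, Cardinal.lift_natCast, Nat.cast_le] at h1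
    have := card_free (n := n)
    omega
  rw [algebraicIndependent_iff] at hni
  push Not at hni
  obtain ⟨P, h0, hP⟩ := hni
  refine ⟨P, hP, ?_⟩
  apply map_injective (algebraMap ℚ ℝ) (algebraMap ℚ ℝ).injective
  rw [map_zero]
  apply MvPolynomial.funext
  intro x
  rw [map_zero, eval_map, ← aeval_def, aeval_aeval]
  obtain ⟨c, d, hcd, hz⟩ : ∃ c d : ℝ, c ^ 2 + d ^ 2 = 1 ∧
      c * (x (1, 1) - x (0, 1)) - d * (x (1, 0) - x (0, 0)) = 0 := by
    set u := x (1, 0) - x (0, 0)
    set v := x (1, 1) - x (0, 1)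
    by_cases h : u ^ 2 + v ^ 2 = 0
    · have hv : v = 0 := by nlinarith [sq_nonneg u, sq_nonneg v]
      exact ⟨1, 0, by norm_num, by simp [hv]⟩
    · have hp : 0 < u ^ 2 + v ^ 2 := lt_of_le_of_ne (by positivity) (Ne.symm h)
      have hs := Real.sq_sqrt hp.le
      have hs0 : √(u ^ 2 + v ^ 2) ≠ 0 := (Real.sqrt_pos.2 hp).ne'
      refine ⟨u / √(u ^ 2 + v ^ 2), v / √(u ^ 2 + v ^ 2), ?_, by ring⟩
      field_simp
      exact hs.symm
  let y : Fin (n + 2) × Fin 2 → ℝ := fun w =>
    if w.2 = 0 then c * (x (w.1, 0) - x (0, 0)) + d * (x (w.1, 1) - x (0, 1))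
    else c * (x (w.1, 1) - x (0, 1)) - d * (x (w.1, 0) - x (0, 0))
  have hy : ∀ w, aeval (fun f : Free n => y f.1) (π w) = y w := by
    intro w
    simp only [π]
    split_ifs with h
    · simp
    · rw [map_zero]
      by_cases a : w = (0, 0)
      · simp [a, y]
      by_cases b : w = (0, 1)
      · simp [b, y]
      have e : w = (1, 1) := by tauto
      simp only [e, y]
      simpa using hz.symm
  have := congrArg (aeval (fun f : Free n => y f.1)) h0
  rw [map_zero, aeval_aeval] at this
  rw [← this]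
  congr 2
  funext e
  simp only [aeval_sqLen, hy, aeval_X]
  simp only [sqLen, y]
  simp
  linear_combination (-((x (s e, 0) - x (t e, 0)) ^ 2 + (x (s e, 1) - x (t e, 1)) ^ 2)) * hcd

/-- Incidence sign. -/
def sg (R : Type) [CommRing R] (v : Fin (n + 2)) (e : Fin m) : R :=
  (if v = s e then 1 else 0) - (if v = t e then 1 else 0)

/-- A common nonzero equilibrium stress. -/
theorem common_stress (hm : 2 * n + 1 < m) (p q : Fin (n + 2) × Fin 2 → ℝ)
    (hp : AlgebraicIndependent ℚ p) (hq : ∀ e, sqLen s t q e = sqLen s t p e) :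
    ∃ ω : Fin m → ℝ, ω ≠ 0 ∧
      (∀ v i, ∑ e, ω e * (sg s t ℝ v e * (p (s e, i) - p (t e, i))) = 0) ∧
      (∀ v i, ∑ e, ω e * (sg s t ℝ v e * (q (s e, i) - q (t e, i))) = 0) := by
  classical
  obtain ⟨P, hP, h0⟩ := dependent s t hm
  obtain ⟨Q, hQ, e0, he0⟩ := descent _ P hP h0
  have eqv : ∀ (x : Fin (n + 2) × Fin 2 → ℝ) v i,
      ∑ e, aeval (sqLen s t x) (pderiv e Q) * (sg s t ℝ v e * (x (s e, i) - x (t e, i))) = 0 := by
    intro x v i
    have h1 := chain (sqLen s t (X : _ → MvPolynomial (Fin (n + 2) × Fin 2) ℚ)) (v, i) Q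
    rw [hQ, map_zero] at h1
    have h2 := congrArg (aeval x) h1
    rw [map_zero, map_sum] at h2
    have h3 : ∀ e, aeval x (aeval (sqLen s t (X : _ → MvPolynomial (Fin (n + 2) × Fin 2) ℚ))
        (pderiv e Q) * pderiv (v, i) (sqLen s t X e)) =
        2 * (aeval (sqLen s t x) (pderiv e Q) * (sg s t ℝ v e * (x (s e, i) - x (t e, i)))) := by
      intro e
      rw [map_mul, aeval_aeval]
      simp only [aeval_sqLen, aeval_X]
      have : aeval x (pderiv (v, i)
          (sqLen s t (X : _ → MvPolynomial (Fin (n + 2) × Fin 2) ℚ) e)) =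
          2 * (sg s t ℝ v e * (x (s e, i) - x (t e, i))) := by
        simp only [sqLen, sg, map_add, pderiv_pow, map_sub, pderiv_X, Pi.single_apply, map_mul,
          Prod.mk.injEq, eq_comm (a := v)]
        fin_cases i <;> by_cases a : s e = v <;> by_cases b : t e = v <;> simp [a, b] <;> ring
      rw [this]
      ring
    simp only [h3, ← Finset.mul_sum] at h2
    linarith
  refine ⟨fun e => aeval (sqLen s t p) (pderiv e Q), fun h => he0 ?_, eqv p, ?_⟩
  · apply hp
    rw [map_zero, aeval_aeval]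
    simp only [aeval_sqLen, aeval_X]
    exact congrFun h e0
  · have : sqLen s t p = sqLen s t q := funext fun e => (hq e).symm
    rw [this]
    exact eqv q

end

end Pool.Agent.Lib.BP70
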